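import Pool.Agent.Y851.DK.F2

/-!
# Numbers of primes in several short windows at once

Let `θ > 0` be arbitrarily small, let `A` be an arbitrary set of integers `a ≤ X ^ θ` containing a positive proportion of the
integers or of the primes, and let `Y` be an arbitrary set of real numbers in `(0, X ^ (1 - θ)]` which is not concentrated on few
intervals of length `log X / X ^ θ`. Let `H_1, ..., H_n` be arbitrary lengths between `λ log X` and `X ^ (1 - ρ)`, for instance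
powers of `log X`. Then for almost all `n`-tuples `(a_1, ..., a_n)` of elements of `A` each of the `2 ^ n` sign patterns occurs for
a positive proportion of the `y ∈ Y`: the windows `(a_j y - H_j, a_j y)` with `s_j = true` contain at least `1 - δ` times the
expected number of primes and the windows with `s_j = false` at most `1 + δ` times this number. The same holds with the roles of
`A` and `Y` exchanged.
-/

set_option autoImplicit false

namespace Pool.Agent.Results.MP_b09185_nt.JointWindows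

open Finset

/-- the number of primes in the open interval `(x - H, x)`, divided by its expected value `H / log x` -/
noncomputable def density (H x : ℝ) : ℝ :=
  (Set.ncard {p : ℕ | p.Prime ∧ x - H < p ∧ (p : ℝ) < x} : ℝ) * Real.log x / H

/-- `D_j ≥ 1 - δ` if `s_j = true`, and `D_j ≤ 1 + δ` if `s_j = false` -/
def Pattern {n : ℕ} (δ : ℝ) (s : Fin n → Bool) (D : Fin n → ℝ) : Prop :=
  ∀ j, (s j = true → 1 - δ ≤ D j) ∧ (s j = false → D j ≤ 1 + δ)

open Classical in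
theorem result (n : ℕ) (hn : 1 ≤ n) (θ lam ρ B δ : ℝ) (hθ : 0 < θ) (hlam : 0 < lam) (hρ : 0 < ρ) (hδ : 0 < δ) :
    ∃ κ X₀ : ℝ, 0 < κ ∧ ∀ X : ℝ, X₀ ≤ X →
    ∀ H : Fin n → ℝ, (∀ j, lam * Real.log X ≤ H j ∧ H j ≤ X ^ (1 - ρ)) → ∀ (A : Finset ℕ) (Y : Finset ℝ),
      (∀ a ∈ A, 1 ≤ a ∧ (a : ℝ) ≤ X ^ θ) →
      (δ * X ^ θ ≤ A.card ∨ ((∀ a ∈ A, a.Prime) ∧ δ * (X ^ θ / Real.log X) ≤ A.card)) →
      (∀ y ∈ Y, 0 < y ∧ y ≤ X ^ (1 - θ)) →
      (∀ u : ℝ, ((Y.filter (fun y => u ≤ y ∧ y ≤ u + Real.log X / X ^ θ)).card : ℝ) ≤ B * (Real.log X / X) * Y.card) →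
      -- almost all `n`-tuples of elements of `A`
      (((Fintype.piFinset (fun _ : Fin n => A)).filter (fun a => ¬ ∀ s : Fin n → Bool,
        κ * Y.card ≤ ((Y.filter (fun y => Pattern δ s (fun j => density (H j) (a j * y)))).card : ℝ))).card : ℝ) ≤
        δ * (A.card : ℝ) ^ n ∧
      -- almost all `n`-tuples of elements of `Y`
      (((Fintype.piFinset (fun _ : Fin n => Y)).filter (fun y => ¬ ∀ s : Fin n → Bool,
        κ * A.card ≤ ((A.filter (fun a : ℕ => Pattern δ s (fun j => density (H j) (a * y j)))).card : ℝ))).card : ℝ) ≤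
        δ * (Y.card : ℝ) ^ n := by
  have hden : ∀ H x : ℝ, density H x = Pool.Agent.Y851.PT.ZH H x := fun H x => (Pool.Agent.Y851.PT.ZH_eq H x).symm
  simp_rw [hden]
  obtain ⟨δ₁, hδ₁⟩ : ∃ δ₁, δ₁ = min δ 1 := ⟨_, rfl⟩
  have hδ₁0 : 0 < δ₁ := by rw [hδ₁]; exact lt_min hδ one_pos
  have hδ₁1 : δ₁ ≤ δ := by rw [hδ₁]; exact min_le_left _ _
  have hδ₁2 : δ₁ ≤ 1 := by rw [hδ₁]; exact min_le_right _ _
  obtain ⟨B₁, hB₁⟩ : ∃ B₁, B₁ = max B 1 := ⟨_, rfl⟩
  have hB₁0 : 1 ≤ B₁ := by rw [hB₁]; exact le_max_right _ _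
  have hB₁1 : B ≤ B₁ := by rw [hB₁]; exact le_max_left _ _
  obtain ⟨l₁, hl₁⟩ : ∃ l₁, l₁ = min lam 1 := ⟨_, rfl⟩
  have hl₁0 : 0 < l₁ := by rw [hl₁]; exact lt_min hlam one_pos
  have hl₁1 : l₁ ≤ lam := by rw [hl₁]; exact min_le_left _ _
  have hl₁2 : l₁ ≤ 1 := by rw [hl₁]; exact min_le_right _ _
  obtain ⟨κ, hκ, hev⟩ := Pool.Agent.Y851.DK.joint θ l₁ ρ δ₁ B₁ n hn hθ hl₁0 hl₁2 hρ hδ₁0 hδ₁2 hB₁0
  obtain ⟨X₀, hX₀⟩ := Filter.eventually_atTop.1 (hev.and (Filter.eventually_gt_atTop 1))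
  refine ⟨κ, X₀, hκ, fun X hX H hH A Y hA1 hA2 hY1 hY2 => ?_⟩
  obtain ⟨h1, h2⟩ := hX₀ X hX
  have hX0 : 0 < X := by linarith only [h2]
  have hlog : 0 < Real.log X := Real.log_pos h2
  have hXθ : 0 < X ^ θ := Real.rpow_pos_of_pos hX0 θ
  have hadm : Pool.Agent.Y851.PS.Adm δ₁ θ X A := by
    refine ⟨hA1, ?_⟩
    rcases hA2 with g | ⟨g1, g2⟩
    · exact Or.inl ((mul_le_mul_of_nonneg_right hδ₁1 hXθ.le).trans g)
    · exact Or.inr ⟨g1, (mul_le_mul_of_nonneg_right hδ₁1 (div_nonneg hXθ.le hlog.le)).trans g2⟩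
  have hsp : Pool.Agent.Y851.PT.SpH B₁ (Real.log X) θ X Y := by
    refine ⟨fun y hy => (hY1 y hy).1, fun y hy => (hY1 y hy).2, fun u => ?_⟩
    refine (le_trans (le_of_eq ?_) (hY2 u)).trans ?_
    · congr!
    · apply mul_le_mul_of_nonneg_right _ (Nat.cast_nonneg _)
      exact mul_le_mul_of_nonneg_right hB₁1 (div_nonneg hlog.le hX0.le)
  obtain ⟨g1, g2⟩ := h1 H (fun j => ⟨(mul_le_mul_of_nonneg_right hl₁1 hlog.le).trans (hH j).1, (hH j).2⟩) A Y hadm hsp
  constructor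
  · refine le_trans ?_ (g2.trans (mul_le_mul_of_nonneg_right hδ₁1 (pow_nonneg (Nat.cast_nonneg _) n)))
    apply Nat.cast_le.2
    apply card_le_card
    intro a ha
    rw [mem_filter] at ha ⊢
    refine ⟨ha.1, fun hcon => ha.2 fun s => (hcon s).trans ?_⟩
    apply Nat.cast_le.2
    apply card_le_card
    intro y hy
    rw [mem_filter] at hy ⊢
    refine ⟨hy.1, fun j => ⟨fun hs => ?_, fun hs => ?_⟩⟩
    · have := (hy.2 j).1 hs
      linarith only [this, hδ₁1]
    · have := (hy.2 j).2 hs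
      linarith only [this, hδ₁1]
  · refine le_trans ?_ (g1.trans (mul_le_mul_of_nonneg_right hδ₁1 (pow_nonneg (Nat.cast_nonneg _) n)))
    apply Nat.cast_le.2
    apply card_le_card
    intro a ha
    rw [mem_filter] at ha ⊢
    refine ⟨ha.1, fun hcon => ha.2 fun s => (hcon s).trans ?_⟩
    apply Nat.cast_le.2
    apply card_le_card
    intro y hy
    rw [mem_filter] at hy ⊢
    refine ⟨hy.1, fun j => ⟨fun hs => ?_, fun hs => ?_⟩⟩
    · have := (hy.2 j).1 hs
      linarith only [this, hδ₁1]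
    · have := (hy.2 j).2 hs
      linarith only [this, hδ₁1]

end Pool.Agent.Results.MP_b09185_nt.JointWindows
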