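import Pool.Agent.Y751.SI.Pts

set_option autoImplicit false

/-!
# Szemerédi's theorem for primes in windows of polylogarithmic length around almost all integers

The engine is Szemerédi's theorem relative to sifted sets in arbitrary intervals of length `X ^ θ`
(`Pool.Agent.Y677.RSZ`, helper677 and others); the regular points of short intervals and Hoheisel's theorem
are from the starting files (`Pool.Agent.Results.MP_76a5fe_nt.RegularPoints`).
-/

namespace Pool.Agent.Results.MP_b09185_nt.LocalSzemeredi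

open Finset Filter

/-- `S` contains `k` numbers in arithmetic progression with a positive difference of at most `D`. -/
def HasAP (k : ℕ) (D : ℝ) (S : Set ℕ) : Prop :=
  ∃ a d : ℕ, 1 ≤ d ∧ (d : ℝ) ≤ D ∧ ∀ i < k, a + i * d ∈ S

/-- Szemerédi's theorem holds for the numbers without prime factors up to `X ^ η`, in particular for the
primes, in all windows `(m - s, m + t]`, `s, t ≤ Y`, around `m` of length at least `log ^ B X`: every set of
at least `δ (s + t) / log X` such numbers in the window contains `k` numbers in arithmetic progression with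
a difference of at most `log ^ B X`. -/
def SzPoint (k : ℕ) (η δ : ℝ) (B X Y m : ℕ) : Prop :=
  ∀ s t : ℕ, s ≤ Y → t ≤ Y → Real.log X ^ B ≤ (s : ℝ) + t → ∀ S : Finset ℕ, S ⊆ Ioc (m - s) (m + t) →
    δ * ((s : ℝ) + t) / Real.log X ≤ S.card →
    (∀ n ∈ S, ∀ p : ℕ, p.Prime → p ∣ n → (X : ℝ) ^ η < p) → HasAP k (Real.log X ^ B) (S : Set ℕ)

open Classical in
/-- **Szemerédi's theorem in all windows of at least polylogarithmic length around almost all integers**,
and progressions of primes in all these windows around a positive proportion of the integers. -/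
theorem result :
    (∀ (k : ℕ) (θ η δ ε : ℝ), 0 < θ → 0 < η → 0 < δ → 0 < ε → ∃ B : ℕ, ∀ᶠ X : ℕ in atTop, ∀ Y : ℕ,
      (X : ℝ) ^ θ ≤ Y → 3 * Y ≤ X →
        (((Ioc X (X + Y)).filter (fun m => ¬ SzPoint k η δ B X Y m)).card : ℝ) ≤ ε * Y) ∧
    ∃ θ c : ℝ, 0 < θ ∧ θ < 1 ∧ 0 < c ∧ ∀ k q : ℕ, 1 ≤ q → ∃ B : ℕ, ∀ᶠ X : ℕ in atTop, ∀ Y : ℕ,
      (X : ℝ) ^ θ ≤ Y → 3 * Y ≤ X →
        c * Y ≤ (((Ioc X (X + Y)).filter (fun m => ∀ a b : ℕ, a ≤ m → m ≤ b →
          Real.log m ^ B ≤ (b : ℝ) - a → ∀ χ : ℕ → Fin q, ∃ j : Fin q,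
          HasAP k (Real.log m ^ B) {n | n.Prime ∧ a < n ∧ n ≤ b ∧ χ n = j})).card : ℝ) :=
  ⟨fun k θ η δ ε hθ hη hδ hε => Pool.Agent.Y751.SI.most k θ η δ ε hθ hη hδ hε, Pool.Agent.Y751.SI.pts⟩

end Pool.Agent.Results.MP_b09185_nt.LocalSzemeredi
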