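import Pool.Agent.Y885.WP5

/-!
# Primes in windows of `(log N) ^ a` points, `a > 1`, whose points are shifted by very few elements of an arbitrary set
which meets every interval `[x, l x]`
-/

set_option autoImplicit false

namespace Pool.Agent.Results.MP_b09185_nt.PerturbedWindows

open Finset

/-- the number of the primes among the `y` numbers `n + h + j + ∑ S j`, `0 ≤ j < y` (for `S j = ∅` these are the primes
in the interval `[n + h, n + h + y)`) -/
def P (S : ℕ → Finset ℕ) (h n y : ℕ) : ℕ := ((range y).filter (fun j => (n + (h + j + ∑ a ∈ S j, a)).Prime)).card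

open Classical in
/-- For all `l ≥ 2` and `κ` there is a constant `C` such that for all `H`, `B` and `ε > 0` there are constants `C₁` and
`N₀` with the following property. Let `A` be an arbitrary set of integers which contains an element of every interval
`[x, l x]`, `x ≥ 1` (the constants do not depend on `A`), let `N ≥ N₀`, `0 ≤ h ≤ B N` and `Y₀ ≥ 1`. Then there are sets
`S j`, `j = 0, 1, 2, ...`, of at most `C (log log N) ^ 2` elements of `A`, all between `log ^ H N` and `N / log ^ H N`,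
such that for all `n ≤ N` with at most `C₁ N (log N) / Y₀` exceptions the number of the primes in the windows
`n + h + j + ∑ S j`, `0 ≤ j < y`, is between `(1 - ε) y / log N` and `(1 + ε) y / log N` for ALL lengths `y` with
`Y₀ ≤ y ≤ log ^ κ N`. For `Y₀ = log ^ a N`, `a > 1`, there are at most `C₁ N / log ^ (a - 1) N` exceptions. -/
theorem result (l κ : ℕ) (hl : 2 ≤ l) : ∃ C : ℝ, ∀ (H B : ℕ) (ε : ℝ), 0 < ε → ∃ (C₁ : ℝ) (N₀ : ℕ),
    ∀ A : Set ℕ, (∀ x : ℕ, 1 ≤ x → ∃ a ∈ A, x ≤ a ∧ a ≤ l * x) →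
      ∀ N : ℕ, N₀ ≤ N → ∀ h : ℕ, h ≤ B * N → ∀ Y₀ : ℕ, 1 ≤ Y₀ →
        ∃ S : ℕ → Finset ℕ,
          (∀ j, ∀ a ∈ S j, a ∈ A ∧ Real.log N ^ H ≤ a ∧ (a : ℝ) ≤ N / Real.log N ^ H) ∧
          (∀ j, ((S j).card : ℝ) ≤ C * Real.log (Real.log N) ^ 2) ∧
          (((Icc 1 N).filter (fun n => ∃ y : ℕ, Y₀ ≤ y ∧ (y : ℝ) ≤ Real.log N ^ κ ∧
            ε * (y / Real.log N) < |(P S h n y : ℝ) - y / Real.log N|)).card : ℝ) ≤ C₁ * (N * (Real.log N / Y₀)) :=
  Pool.Agent.Y885.las_windows l κ hl

end Pool.Agent.Results.MP_b09185_nt.PerturbedWindows
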